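import Pool.Agent.H90.STK.Stmts3

/-!
# TF2: the mean logarithm of the multiplicity of a family of tubes
-/

set_option autoImplicit false

namespace Pool.STK

open Finset Real MeasureTheory
open scoped RealInnerProductSpace
open Pool.Agent.H53.Kak (E tube)

theorem TF2.covAt_comp {d : ℕ} {ι κ : Type} {L δ ρ : ℝ} {A : ℕ} {c e : ι → E d}
    (h : CovAt L δ ρ A c e) (f : κ → ι) :
    CovAt L δ ρ A (fun i => c (f i)) (fun i => e (f i)) := by
  intro x v hv
  obtain ⟨F, h1, h2, h3⟩ := h x v hv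
  exact ⟨F, h1, h2, fun i hi hi' => h3 (f i) hi hi'⟩

theorem TF2.covM_comp {d : ℕ} {ι κ : Type} {L δ : ℝ} {M : ℕ} {A : ℕ → ℕ} {c e : ι → E d}
    (h : CovM L δ M A c e) (f : κ → ι) :
    CovM L δ M A (fun i => c (f i)) (fun i => e (f i)) :=
  fun r hr hr' => ⟨(h r hr hr').1, TF2.covAt_comp (h r hr hr').2 f⟩

/-- **TF2**: the mean logarithm of the multiplicity. -/
theorem tf2_thm (hTM : TM2Stmt) (hTV : TV2Stmt) (hTO : TO2Stmt) : TF2Stmt := by
  intro d hd ε L hε hL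
  obtain ⟨C₉, hC₉, hTV'⟩ := hTV d
  obtain ⟨C, hC, hTO'⟩ := hTO d
  have hC0 : 0 < C := lt_of_lt_of_le one_pos hC
  have hε' : 0 < ε / (C * C₉) := by positivity
  obtain ⟨M, hM, C₈, hC₈, hTM'⟩ := hTM d hd (ε / (C * C₉)) L hε' hL
  refine ⟨M, hM, C * C₉ * 2 ^ d, C * (C₉ * C₈ + 1), by positivity, by positivity, ?_⟩
  intro δ hδ hδ1 N c e he hsep A hA
  set S : ℝ := ∑ r ∈ Finset.Ico 1 M, Real.log (A r) with hS
  have hS0 : 0 ≤ S := Finset.sum_nonneg fun r hr => by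
    rw [Finset.mem_Ico] at hr
    have h1 := (hA r hr.1 hr.2).1
    exact Real.log_nonneg (by exact_mod_cast h1)
  have hlog : 0 ≤ Real.log (1 / δ) := Real.log_nonneg (by
    rw [le_div_iff₀ hδ]
    linarith)
  set B : ℝ := C₉ * δ ^ d * (C₈ + ε / (C * C₉) * Real.log (1 / δ) + 2 ^ d * S) with hB
  have hB0 : 0 ≤ B := by positivity
  have key := hTO' δ B hδ hδ1 hB0 (Fin N) c e he (by
    intro κ _ _ f k g q hf hcell
    refine (hTV' δ hδ hδ1 κ (fun i => c (f i)) (fun i => e (f i)) k g q hcell).trans ?_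
    apply ENNReal.ofReal_le_ofReal
    have h1 := hTM' δ hδ hδ1 κ (fun i => c (f i)) (fun i => e (f i)) k g q hcell
      (fun i i' hii => hsep (f i) (f i') (fun h => hii (hf h))) A (TF2.covM_comp hA f)
    have h2 : 0 ≤ C₉ * δ ^ d := by positivity
    calc C₉ * δ ^ d * ∫ s in (0 : ℝ)..1, ∑ i, Real.log
          (nr k g δ (fun i => c (f i)) (fun i => e (f i)) s i)
        ≤ C₉ * δ ^ d * ((Fintype.card κ : ℝ) * (C₈ + ε / (C * C₉) * Real.log (1 / δ) +
            2 ^ d * S)) := mul_le_mul_of_nonneg_left h1 h2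
      _ = B * Fintype.card κ := by rw [hB]; ring)
  refine key.trans (le_of_eq ?_)
  congr 1
  rw [Fintype.card_fin, hB]
  field_simp
  ring

end Pool.STK
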